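import Pool.Agent.Y104.WL.Stm

/-!
# Alternation from transpositions
-/

set_option autoImplicit false

namespace Pool.Agent.Y255.WL

universe u

theorem swp_core (K : Type*) [Field K] (T β B : Type) [Fintype T] [DecidableEq T] (κ : T → B)
    (Ξ : (T → β) → K) (h : ∀ x y, x ≠ y → κ x = κ y → ∀ I : T → β,
      Ξ (fun z => I (Equiv.swap x y z)) = -Ξ I) : ∀ (n : ℕ) (σ : Equiv.Perm T),
      σ.support.card ≤ n → (∀ x, κ (σ x) = κ x) → ∀ I : T → β,
      Ξ (fun x => I (σ x)) = ((Equiv.Perm.sign σ : ℤ) : K) * Ξ I := by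
  intro n
  induction n with
  | zero =>
    intro σ hσ _ I
    have h1 : σ = 1 := by
      rw [← Equiv.Perm.support_eq_empty_iff]
      exact Finset.card_eq_zero.1 (Nat.le_zero.1 hσ)
    subst h1
    simp
  | succ n ih =>
    intro σ hσ hκ I
    by_cases h1 : σ = 1
    · subst h1
      simp
    · obtain ⟨x, hx⟩ : ∃ x, σ x ≠ x := by
        by_contra hcon
        push Not at hcon
        exact h1 (Equiv.ext hcon)
      have hρ : (Equiv.swap x (σ x) * σ).support.card ≤ n := by
        have := Equiv.Perm.card_support_swap_mul hx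
        omega
      have hκρ : ∀ z, κ ((Equiv.swap x (σ x) * σ) z) = κ z := by
        intro z
        rw [Equiv.Perm.mul_apply]
        rw [← hκ z]
        rcases eq_or_ne (σ z) x with h2 | h2
        · rw [h2, Equiv.swap_apply_left, hκ x]
        · rcases eq_or_ne (σ z) (σ x) with h3 | h3
          · rw [h3, Equiv.swap_apply_right, hκ x]
          · rw [Equiv.swap_apply_of_ne_of_ne h2 h3]
      have h2 := ih (Equiv.swap x (σ x) * σ) hρ hκρ (fun t => I (Equiv.swap x (σ x) t))
      have h3 : (fun z => I (σ z)) =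
          fun z => I (Equiv.swap x (σ x) ((Equiv.swap x (σ x) * σ) z)) := by
        funext z
        rw [Equiv.Perm.mul_apply, Equiv.swap_apply_self]
      rw [h3, h2, h x (σ x) (Ne.symm hx) (hκ x).symm I, Equiv.Perm.sign_mul,
        Equiv.Perm.sign_swap (Ne.symm hx)]
      push_cast
      ring

theorem swp : Pool.Agent.Y104.WL.S_SWP.{u} := fun K _ T β B _ _ κ Ξ h σ hσ I =>
  swp_core K T β B κ Ξ h _ σ le_rfl hσ I

end Pool.Agent.Y255.WL
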